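import Pool.Agent.Helper67.DO.StmtsT

namespace Pool.Agent.Helper67.DO

open scoped BigOperators Real BoundedContinuousFunction
open Set Filter Topology

noncomputable section

def t8_up (f : ℝ →ᵇ ℝ) : ℝ → ℝ := fun x => x + f x

def t8_X (n : ℕ) (a b : ℝ) : Set (ℝ →ᵇ ℝ) := {f | t8_up f ∈ AA n ∧ a ≤ f 0 ∧ f 0 ≤ b}

theorem t8_of (hd2 : ST_D2) {n : ℕ} (hn : 1 ≤ n) {Φ : ℝ → ℝ} (h : Φ ∈ AA n) :
    ∃ f : ℝ →ᵇ ℝ, t8_up f = Φ := by
  obtain ⟨K, hK, hb⟩ := hd2.2.2.2.2.2.1 n hn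
  have hc : Continuous fun x => Φ x - x := h.1.cont.sub continuous_id
  refine ⟨BoundedContinuousFunction.ofNormedAddCommGroup (fun x => Φ x - x) hc (K + |Φ 0|) ?_, ?_⟩
  · intro x
    have h1 := hb Φ h x
    rw [Real.norm_eq_abs]
    calc |Φ x - x| = |(Φ x - x - Φ 0) + Φ 0| := by ring_nf
      _ ≤ |Φ x - x - Φ 0| + |Φ 0| := abs_add_le _ _
      _ ≤ K + |Φ 0| := by linarith
  · funext x
    show x + (Φ x - x) = Φ x
    ring

theorem t8_cpt0 (hd2 : ST_D2) (hd3 : ST_D3) {n : ℕ} (hn : 1 ≤ n) : IsCompact (t8_X n 0 1) := by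
  apply IsSeqCompact.isCompact
  intro x hx
  obtain ⟨Φ, hΦ, φ, hφ, hu⟩ := hd3.2.2 n hn (fun k => t8_up (x k)) (fun k => by
    obtain ⟨h1, h2, h3⟩ := hx k
    refine ⟨h1, ?_, ?_⟩
    · show 0 ≤ 0 + x k 0
      linarith
    · show 0 + x k 0 ≤ 1
      linarith)
  obtain ⟨a, ha⟩ := t8_of hd2 hn hΦ
  have key : ∀ ε : ℝ, 0 < ε → ∃ k0, ∀ k, k0 ≤ k → ∀ t, |x (φ k) t - a t| ≤ ε := by
    intro ε he
    obtain ⟨k0, hk⟩ := hu ε he
    refine ⟨k0, fun k hk' t => ?_⟩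
    have h1 := hk k hk' t
    have e : t8_up (x (φ k)) t - Φ t = x (φ k) t - a t := by
      rw [← ha]
      show (t + x (φ k) t) - (t + a t) = _
      ring
    rwa [e] at h1
  have h0 : Tendsto (fun k => x (φ k) 0) atTop (𝓝 (a 0)) := by
    rw [Metric.tendsto_atTop]
    intro ε he
    obtain ⟨k0, hk⟩ := key (ε / 2) (by linarith)
    refine ⟨k0, fun k hk' => ?_⟩
    rw [Real.dist_eq]
    have := hk k hk' 0
    linarith
  refine ⟨a, ⟨by rw [ha]; exact hΦ, ?_, ?_⟩, φ, hφ, ?_⟩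
  · exact ge_of_tendsto' h0 (fun k => (hx (φ k)).2.1)
  · exact le_of_tendsto' h0 (fun k => (hx (φ k)).2.2)
  · rw [Metric.tendsto_atTop]
    intro ε he
    obtain ⟨k0, hk⟩ := key (ε / 2) (by linarith)
    refine ⟨k0, fun k hk' => ?_⟩
    have : dist (x (φ k)) a ≤ ε / 2 := by
      rw [BoundedContinuousFunction.dist_le (by linarith)]
      intro t
      rw [Real.dist_eq]
      exact hk k hk' t
    show dist (x (φ k)) a < ε
    linarith

theorem t8_mem_add (hd2 : ST_D2) {n : ℕ} (hn : 1 ≤ n) {a b : ℝ} {f : ℝ →ᵇ ℝ} (hf : f ∈ t8_X n a b) (j : ℝ) :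
    f + BoundedContinuousFunction.const ℝ j ∈ t8_X n (a + j) (b + j) := by
  obtain ⟨h1, h2, h3⟩ := hf
  have e : t8_up (f + BoundedContinuousFunction.const ℝ j) = fun x => t8_up f x + j := by
    funext x
    show x + (f x + j) = x + f x + j
    ring
  refine ⟨?_, ?_, ?_⟩
  · rw [e]
    exact (hd2.2.2.2.2.1 n hn _ h1 j).1
  · show a + j ≤ f 0 + j
    linarith
  · show f 0 + j ≤ b + j
    linarith

theorem t8_cptj (hd2 : ST_D2) (hd3 : ST_D3) {n : ℕ} (hn : 1 ≤ n) (j : ℝ) : IsCompact (t8_X n j (1 + j)) := by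
  have h := (t8_cpt0 hd2 hd3 hn).image
    (f := fun f : ℝ →ᵇ ℝ => f + BoundedContinuousFunction.const ℝ j) (by fun_prop)
  have e : (fun f : ℝ →ᵇ ℝ => f + BoundedContinuousFunction.const ℝ j) '' t8_X n 0 1 = t8_X n j (1 + j) := by
    ext f
    constructor
    · rintro ⟨g, hg, rfl⟩
      have := t8_mem_add hd2 hn hg j
      rwa [zero_add] at this
    · intro hf
      refine ⟨f + BoundedContinuousFunction.const ℝ (-j), ?_, ?_⟩
      · have := t8_mem_add hd2 hn hf (-j)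
        rw [add_neg_cancel, add_neg_cancel_right] at this
        exact this
      · ext x
        show f x + -j + j = f x
        ring
  rwa [e] at h

theorem t8_cpt (hd2 : ST_D2) (hd3 : ST_D3) {n : ℕ} (hn : 1 ≤ n) : IsCompact (t8_X n (-1) 2) := by
  have e : t8_X n (-1) 2 = (t8_X n (-1) (1 + -1) ∪ t8_X n 0 (1 + 0)) ∪ t8_X n 1 (1 + 1) := by
    ext f
    constructor
    · rintro ⟨h1, h2, h3⟩
      rcases le_total (f 0) 0 with h | h
      · exact Or.inl (Or.inl ⟨h1, h2, by linarith⟩)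
      · rcases le_total (f 0) 1 with h' | h'
        · exact Or.inl (Or.inr ⟨h1, h, by linarith⟩)
        · exact Or.inr ⟨h1, h', by linarith⟩
    · rintro ((⟨h1, h2, h3⟩ | ⟨h1, h2, h3⟩) | ⟨h1, h2, h3⟩)
      · exact ⟨h1, h2, by linarith⟩
      · exact ⟨h1, by linarith, by linarith⟩
      · exact ⟨h1, by linarith, by linarith⟩
  rw [e]
  exact ((t8_cptj hd2 hd3 hn _).union (t8_cptj hd2 hd3 hn _)).union (t8_cptj hd2 hd3 hn _)

theorem t8_clsid (h1 : ST_T1) : cls (fun x => x) = 1 := by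
  refine h1.2.1 _ _ (fun x => x) (h1.1 _ isLift_id) ?_
  exact ⟨isLift_id, fun x => rfl⟩

theorem t8_deriv_bdd {Φ : ℝ → ℝ} (h : IsLift Φ) : ∃ L : ℝ, 0 ≤ L ∧ ∀ x y, |Φ x - Φ y| ≤ L * |x - y| := by
  have hc : Continuous (deriv Φ) :=
    continuous_iff_continuousAt.2 fun x => ((h.an x).deriv).continuousAt
  have hp : ∀ x, deriv Φ (x + 1) = deriv Φ x := by
    intro x
    have e : (fun t => Φ (t + 1)) = fun t => Φ t + 1 := funext h.per
    have e1 : deriv (fun t => Φ (t + 1)) x = deriv Φ (x + 1) := deriv_comp_add_const Φ 1 x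
    rw [← e1, e]
    simp
  obtain ⟨L, hL⟩ := (isCompact_Icc (a := (0 : ℝ)) (b := 1)).exists_bound_of_continuousOn hc.continuousOn
  have hper : Function.Periodic (deriv Φ) 1 := hp
  have hall : ∀ x, ‖deriv Φ x‖ ≤ L := by
    intro x
    obtain ⟨y, hy, hxy⟩ := hper.exists_mem_Ico₀ one_pos x
    rw [hxy]
    exact hL y ⟨hy.1, hy.2.le⟩
  refine ⟨L, (norm_nonneg _).trans (hall 0), fun x y => ?_⟩
  have := Convex.norm_image_sub_le_of_norm_deriv_le (f := Φ) (C := L) (s := Set.univ)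
    (fun x _ => (h.diff x)) (fun x _ => hall x) convex_univ (Set.mem_univ y) (Set.mem_univ x)
  simpa [Real.norm_eq_abs] using this

theorem t8_lower {n : ℕ} (hn : 1 ≤ n) {Ψ : ℝ → ℝ} (h : Ψ ∈ AA n) (u v : ℝ) :
    |u - v| ≤ n * |Ψ u - Ψ v| := by
  have hn' : (0 : ℝ) < n := by exact_mod_cast hn
  have key : ∀ a b : ℝ, a ≤ b → 1 / (n : ℝ) * (b - a) ≤ Ψ b - Ψ a := by
    intro a b hab
    exact Convex.mul_sub_le_image_sub_of_le_deriv (D := Set.univ) convex_univ h.1.cont.continuousOn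
      (h.1.diff.differentiableOn) (fun x _ => h.2.2 x) a (Set.mem_univ a) b (Set.mem_univ b) hab
  rcases le_total u v with huv | huv
  · have := key u v huv
    rw [abs_of_nonpos (by linarith), abs_of_nonpos]
    · have h2 : (v - u) ≤ n * (Ψ v - Ψ u) := by
        have := mul_le_mul_of_nonneg_left this hn'.le
        rw [← mul_assoc, mul_one_div_cancel hn'.ne', one_mul] at this
        exact this
      linarith
    · have : 0 ≤ 1 / (n : ℝ) * (v - u) := mul_nonneg (by positivity) (by linarith)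
      linarith
  · have := key v u huv
    rw [abs_of_nonneg (by linarith), abs_of_nonneg]
    · have := mul_le_mul_of_nonneg_left this hn'.le
      rw [← mul_assoc, mul_one_div_cancel hn'.ne', one_mul] at this
      exact this
    · have : 0 ≤ 1 / (n : ℝ) * (u - v) := mul_nonneg (by positivity) (by linarith)
      linarith

theorem t8_clsinv (h1 : ST_T1) {Φ Ψ : ℝ → ℝ} (hΦ : IsLift Φ) (hΨ : IsLift Ψ) (h : ∀ x, Φ (Ψ x) = x) :
    cls Ψ = (cls Φ)⁻¹ := by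
  apply eq_inv_of_mul_eq_one_right
  rw [← h1.2.2.2.1 Φ Ψ hΦ hΨ, show (fun x => Φ (Ψ x)) = fun x => x from funext h]
  exact t8_clsid h1

/-- continuity of `(Φ,Ψ) ↦ [Φ][Ψ]⁻¹` at every level -/
theorem t8_pq (h1 : ST_T1) (h4 : ST_T4) (hd3 : ST_D3) {n : ℕ} (hn : 1 ≤ n) {Φ Ψ : ℝ → ℝ}
    (hΦ : Φ ∈ AA n) (hΨ : Ψ ∈ AA n) {U : Set DiffOmega} (hU : IsOpen U) (hm : cls Φ * (cls Ψ)⁻¹ ∈ U) :
    ∃ δ : ℝ, 0 < δ ∧ ∀ Φ' ∈ AA n, ∀ Ψ' ∈ AA n, (∀ x, |Φ x - Φ' x| ≤ δ) → (∀ x, |Ψ x - Ψ' x| ≤ δ) →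
      cls Φ' * (cls Ψ')⁻¹ ∈ U := by
  obtain ⟨k1, hk1, hinv⟩ := hd3.2.1 n hn
  obtain ⟨k2, hk2, hcomp⟩ := hd3.1 n k1 hn hk1
  have hform : ∀ Φ' ∈ AA n, ∀ Ψ' ∈ AA n, ∀ Ψi ∈ AA k1, (∀ x, Ψ' (Ψi x) = x) →
      cls (fun x => Φ' (Ψi x)) = cls Φ' * (cls Ψ')⁻¹ := by
    intro Φ' hΦ' Ψ' hΨ' Ψi hΨi hx
    rw [h1.2.2.2.1 Φ' Ψi hΦ'.1 hΨi.1, t8_clsinv h1 hΨ'.1 hΨi.1 hx]
  obtain ⟨Ψi, hΨi, hΨx⟩ := hinv Ψ hΨ
  have hP := hcomp Φ hΦ Ψi hΨi
  have hPU : cls (fun x => Φ (Ψi x)) ∈ U := by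
    rw [hform Φ hΦ Ψ hΨ Ψi hΨi (fun x => (hΨx x).1)]
    exact hm
  obtain ⟨δ', hδ', hcl⟩ := h4.1 U hU k2 hk2 _ hP hPU
  obtain ⟨L, hL, hLip⟩ := t8_deriv_bdd hΦ.1
  have hn' : (0 : ℝ) < n := by exact_mod_cast hn
  have hpos : 0 < L * n + 1 := by positivity
  refine ⟨δ' / (L * n + 1), by positivity, ?_⟩
  intro Φ' hΦ' Ψ' hΨ' h3 h5
  obtain ⟨Ψi', hΨi', hΨx'⟩ := hinv Ψ' hΨ'
  rw [← hform Φ' hΦ' Ψ' hΨ' Ψi' hΨi' (fun x => (hΨx' x).1)]
  refine hcl _ (hcomp Φ' hΦ' Ψi' hΨi') (fun x => ?_)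
  have hA : |Ψi x - Ψi' x| ≤ n * (δ' / (L * n + 1)) := by
    have e1 := t8_lower hn hΨ' (Ψi x) (Ψi' x)
    have e2 : Ψ' (Ψi x) - Ψ' (Ψi' x) = -(Ψ (Ψi x) - Ψ' (Ψi x)) := by
      rw [(hΨx' x).1, (hΨx x).1]
      ring
    rw [e2, abs_neg] at e1
    exact e1.trans (mul_le_mul_of_nonneg_left (h5 _) hn'.le)
  calc |Φ (Ψi x) - Φ' (Ψi' x)| = |(Φ (Ψi x) - Φ (Ψi' x)) + (Φ (Ψi' x) - Φ' (Ψi' x))| := by ring_nf
    _ ≤ |Φ (Ψi x) - Φ (Ψi' x)| + |Φ (Ψi' x) - Φ' (Ψi' x)| := abs_add_le _ _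
    _ ≤ L * (n * (δ' / (L * n + 1))) + δ' / (L * n + 1) :=
      add_le_add ((hLip _ _).trans (mul_le_mul_of_nonneg_left hA hL)) (h3 _)
    _ = δ' := by
      field_simp

def t8_Q (p : ℕ) (F : Fin (p + 1) → ℝ →ᵇ ℝ) : Fin p → DiffOmega :=
  fun i => cls (t8_up (F i.castSucc)) * (cls (t8_up (F i.succ)))⁻¹

def t8_S (n p : ℕ) : Set (Fin (p + 1) → ℝ →ᵇ ℝ) := Set.univ.pi fun _ => t8_X n (-1) 2

def t8_ext (p : ℕ) (F : Fin (p + 1) → ℝ →ᵇ ℝ) : Sq :=
  fun k => if h : k < p + 1 then t8_up (F ⟨k, h⟩) else t8_up (F 0)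

theorem t8_ext_mem {n p : ℕ} {F : Fin (p + 1) → ℝ →ᵇ ℝ} (hF : F ∈ t8_S n p) (k : ℕ) : t8_ext p F k ∈ AA n := by
  unfold t8_ext
  split_ifs with h
  · exact (hF ⟨k, h⟩ (Set.mem_univ _)).1
  · exact (hF 0 (Set.mem_univ _)).1

theorem t8_prQ_ext (p : ℕ) (F : Fin (p + 1) → ℝ →ᵇ ℝ) : prQ p (t8_ext p F) = t8_Q p F := by
  funext i
  unfold prQ t8_Q t8_ext
  have h1 : (i : ℕ) < p + 1 := by omega
  have h2 : (i : ℕ) + 1 < p + 1 := by omega
  rw [dif_pos h1, dif_pos h2]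
  rfl

theorem t8_S_cpt (hd2 : ST_D2) (hd3 : ST_D3) {n : ℕ} (hn : 1 ≤ n) (p : ℕ) : IsCompact (t8_S n p) :=
  isCompact_univ_pi fun _ => t8_cpt hd2 hd3 hn

theorem t8_Q_cont (h1 : ST_T1) (h4 : ST_T4) (hd3 : ST_D3) {n : ℕ} (hn : 1 ≤ n) (p : ℕ) :
    ContinuousOn (t8_Q p) (t8_S n p) := by
  rw [continuousOn_pi]
  intro i F hF
  rw [ContinuousWithinAt, Filter.tendsto_def]
  intro V hV
  obtain ⟨U, hUV, hU, hmU⟩ := mem_nhds_iff.1 hV
  obtain ⟨δ, hδ, hcl⟩ := t8_pq h1 h4 hd3 hn (hF i.castSucc (Set.mem_univ _)).1 (hF i.succ (Set.mem_univ _)).1 hU hmU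
  rw [mem_nhdsWithin]
  refine ⟨Metric.ball F δ, Metric.isOpen_ball, Metric.mem_ball_self hδ, ?_⟩
  rintro F' ⟨hF'1, hF'2⟩
  apply hUV
  have hd : ∀ (j : Fin (p + 1)) x, |t8_up (F j) x - t8_up (F' j) x| ≤ δ := by
    intro j x
    have e1 : dist (F' j) (F j) ≤ δ := (dist_le_pi_dist F' F j).trans (Metric.mem_ball.1 hF'1).le
    have e2 := (BoundedContinuousFunction.dist_coe_le_dist (f := F' j) (g := F j) x).trans e1
    rw [Real.dist_eq, abs_sub_comm] at e2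
    have e : t8_up (F j) x - t8_up (F' j) x = F j x - F' j x := by
      show (x + F j x) - (x + F' j x) = _
      ring
    rw [e]
    exact e2
  exact hcl _ (hF'2 i.castSucc (Set.mem_univ _)).1 _ (hF'2 i.succ (Set.mem_univ _)).1 (hd _) (hd _)

/-- normalization by integer translations -/
def t8_t (y : Sq) (k : ℕ) : ℤ := -⌊y k 0⌋

theorem t8_norm (hd2 : ST_D2) {n : ℕ} (hn : 1 ≤ n) {y y' : Sq} (hy' : ∀ k, y' k ∈ AA n)
    {δ : ℝ} (hδ : δ ≤ 1) (p : ℕ) (hd : ∀ k ≤ p, |y k 0 - y' k 0| ≤ δ) :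
    ∃ F ∈ t8_S n p, ∀ k : Fin (p + 1), t8_up (F k) = fun x => y' k x + t8_t y k := by
  have hex : ∀ k : Fin (p + 1), ∃ f : ℝ →ᵇ ℝ, t8_up f = fun x => y' k x + t8_t y k :=
    fun k => t8_of hd2 hn (hd2.2.2.2.2.1 n hn _ (hy' k) _).1
  choose F hF using hex
  refine ⟨F, fun k _ => ⟨?_, ?_⟩, hF⟩
  · rw [hF]
    exact (hd2.2.2.2.2.1 n hn _ (hy' k) _).1
  · have e : F k 0 = y' k 0 + t8_t y k := by
      have := congrFun (hF k) 0
      have e2 : t8_up (F k) 0 = 0 + F k 0 := rfl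
      rw [e2, zero_add] at this
      exact this
    have e3 : (t8_t y k : ℝ) = -(⌊y k 0⌋ : ℝ) := by
      unfold t8_t
      push_cast
      ring
    have h1 := Int.floor_le (y k 0)
    have h2 := Int.lt_floor_add_one (y k 0)
    have h3 := abs_le.1 (hd k (by omega))
    rw [e, e3]
    constructor <;> linarith [h3.1, h3.2]

theorem t8_cls_up (h1 : ST_T1) {n : ℕ} {y' y : Sq} (hy' : ∀ k, y' k ∈ AA n) {p : ℕ}
    {F : Fin (p + 1) → ℝ →ᵇ ℝ} (hF : ∀ k : Fin (p + 1), t8_up (F k) = fun x => y' k x + t8_t y k) :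
    t8_Q p F = prQ p y' := by
  funext i
  unfold t8_Q prQ
  rw [hF, hF, h1.2.2.2.2.1 _ _ (hy' _).1, h1.2.2.2.2.1 _ _ (hy' _).1]
  rfl

theorem t8_dist {y y' : Sq} {p : ℕ} {F F' : Fin (p + 1) → ℝ →ᵇ ℝ} {δ : ℝ} (hδ : 0 ≤ δ)
    (hF : ∀ k : Fin (p + 1), t8_up (F k) = fun x => y k x + t8_t y k)
    (hF' : ∀ k : Fin (p + 1), t8_up (F' k) = fun x => y' k x + t8_t y k)
    (hd : ∀ k ≤ p, ∀ x, |y k x - y' k x| ≤ δ) : dist F F' ≤ δ := by
  rw [dist_pi_le_iff hδ]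
  intro k
  rw [BoundedContinuousFunction.dist_le hδ]
  intro x
  rw [Real.dist_eq]
  have e1 := congrFun (hF k) x
  have e2 := congrFun (hF' k) x
  have e3 : t8_up (F k) x = x + F k x := rfl
  have e4 : t8_up (F' k) x = x + F' k x := rfl
  have e : F k x - F' k x = y k x - y' k x := by linarith
  rw [e]
  exact hd k (by omega) x

theorem t8_part1 (h1 : ST_T1) (h4 : ST_T4) (hd2 : ST_D2) (hd3 : ST_D3) (n p : ℕ)
    (c : (Fin p → DiffOmega) → ℝ) (hn : 1 ≤ n) (hc : ContinuousOn c (EE n p)) : LC n p (Cc p c) where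
  dep y y' h := by
    unfold Cc
    have : prQ p y = prQ p y' := by
      funext i
      unfold prQ
      rw [h i (by omega), h (i + 1) (by omega)]
    rw [this]
  uc := by
    intro ε hε
    have hmaps : Set.MapsTo (t8_Q p) (t8_S n p) (EE n p) := by
      intro F hF
      exact ⟨t8_ext p F, t8_ext_mem hF, (t8_prQ_ext p F).symm⟩
    have hcomp : ContinuousOn (fun F => c (t8_Q p F)) (t8_S n p) := hc.comp (t8_Q_cont h1 h4 hd3 hn p) hmaps
    have huc := (t8_S_cpt hd2 hd3 hn p).uniformContinuousOn_of_continuous hcomp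
    rw [Metric.uniformContinuousOn_iff_le] at huc
    obtain ⟨δ, hδ, hh⟩ := huc ε hε
    refine ⟨min δ 1, lt_min hδ one_pos, ?_⟩
    intro y y' hy hy' hd
    obtain ⟨F, hF, hFe⟩ := t8_norm (y := y) hd2 hn hy (le_refl 1) p (fun k _ => by simp)
    obtain ⟨F', hF', hFe'⟩ := t8_norm (y := y) hd2 hn hy' (min_le_right δ 1) p (fun k hk => hd k hk 0)
    have hdist : dist F F' ≤ δ := (t8_dist (by positivity) hFe hFe' hd).trans (min_le_left _ _)
    have := hh F hF F' hF' hdist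
    rw [t8_cls_up h1 hy hFe, t8_cls_up h1 hy' hFe', Real.dist_eq] at this
    unfold Cc
    rw [← Complex.ofReal_sub, Complex.norm_real]
    exact this
  zinv y t hy := by
    unfold Cc
    have : prQ p (fun k x => y k x + t k) = prQ p y := by
      funext i
      unfold prQ
      rw [h1.2.2.2.2.1 _ _ (hy _).1, h1.2.2.2.2.1 _ _ (hy _).1]
    rw [this]
  rinv y g hg hy hyg := by
    unfold Cc
    have : prQ p (fun k x => y k (g x)) = prQ p y := by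
      funext i
      unfold prQ
      rw [h1.2.2.2.1 _ _ (hy _).1 hg, h1.2.2.2.1 _ _ (hy _).1 hg, mul_inv_rev]
      group
    rw [this]

/-- well-definedness -/
theorem t8_wd (h1 : ST_T1) (hd2 : ST_D2) {n p : ℕ} (hn : 1 ≤ n) {B : Sq → ℂ} (hB : LC n p B) {y y' : Sq}
    (hy : ∀ k, y k ∈ AA n) (hy' : ∀ k, y' k ∈ AA n) (h : prQ p y = prQ p y') : B y = B y' := by
  set g : DiffOmega := (cls (y 0))⁻¹ * cls (y' 0) with hg
  have hgl : IsLift (lft g) := (exists_liftG g).choose_spec.1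
  have hgc : cls (lft g) = g := h1.2.2.2.2.2 g
  have hk : ∀ k, k ≤ p → cls (y' k) = cls (y k) * g := by
    intro k
    induction k with
    | zero => intro _; rw [hg]; group
    | succ k ih =>
      intro hk
      have e := congrFun h ⟨k, by omega⟩
      unfold prQ at e
      simp only at e
      have ih' := ih (by omega)
      have e2 : cls (y' (k + 1)) = cls (y (k + 1)) * (cls (y k))⁻¹ * cls (y' k) := by
        have e3 := congrArg (fun a => a⁻¹ * cls (y' k)) e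
        simp only [mul_inv_rev, inv_inv] at e3
        rw [e3]
        group
      rw [e2, ih']
      group
  set w : Sq := fun k => if k ≤ p then y k else y 0 with hw
  set w' : Sq := fun k => if k ≤ p then y' k else y' 0 with hw'
  have hcls : ∀ k, cls (w' k) = cls (fun x => w k (lft g x)) := by
    intro k
    have hwl : IsLift (w k) := by
      rw [hw]
      simp only
      split_ifs
      · exact (hy k).1
      · exact (hy 0).1
    rw [h1.2.2.2.1 _ _ hwl hgl, hgc]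
    simp only [hw, hw']
    split_ifs with hkp
    · exact hk k hkp
    · exact hk 0 (Nat.zero_le _)
  have hwm : ∀ k, w k ∈ AA n := by
    intro k
    simp only [hw]
    split_ifs
    · exact hy k
    · exact hy 0
  have hwm' : ∀ k, w' k ∈ AA n := by
    intro k
    simp only [hw']
    split_ifs
    · exact hy' k
    · exact hy' 0
  have hex : ∀ k, ∃ t : ℤ, ∀ x, w' k x = w k (lft g x) + t := by
    intro k
    have a1 : LiftG (cls (w' k)) (w' k) := h1.1 _ (hwm' k).1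
    have a2 : LiftG (cls (fun x => w k (lft g x))) (fun x => w k (lft g x)) := h1.1 _ ((hwm k).1.comp hgl)
    rw [← hcls k] at a2
    exact h1.2.2.1 _ _ _ a2 a1
  choose t ht using hex
  have hwg : ∀ k, (fun x => w k (lft g x)) ∈ AA n := by
    intro k
    have e : (fun x => w k (lft g x)) = fun x => w' k x + (-(t k : ℝ)) := by
      funext x
      rw [ht k x]
      ring
    rw [e]
    exact (hd2.2.2.2.2.1 n hn _ (hwm' k) _).1
  calc B y = B w := hB.dep _ _ (fun k hk => by simp [hw, hk])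
    _ = B (fun k x => w k (lft g x)) := (hB.rinv w (lft g) hgl hwm hwg).symm
    _ = B (fun k x => w k (lft g x) + t k) := (hB.zinv _ t hwg).symm
    _ = B w' := by
      congr 1
      funext k x
      exact (ht k x).symm
    _ = B y' := hB.dep _ _ (fun k hk => by simp [hw', hk])

theorem t8_gcont {n p : ℕ} {B : Sq → ℂ} (hB : LC n p B) :
    ContinuousOn (fun F => (B (t8_ext p F)).re) (t8_S n p) := by
  rw [Metric.continuousOn_iff]
  intro F hF ε hε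
  obtain ⟨δ, hδ, hh⟩ := hB.uc (ε / 2) (by linarith)
  refine ⟨δ, hδ, fun F' hF' hd => ?_⟩
  have key : ‖B (t8_ext p F') - B (t8_ext p F)‖ ≤ ε / 2 := by
    apply hh _ _ (t8_ext_mem hF') (t8_ext_mem hF)
    intro k hk x
    unfold t8_ext
    have hk' : k < p + 1 := by omega
    rw [dif_pos hk', dif_pos hk']
    have e1 : dist (F' ⟨k, hk'⟩) (F ⟨k, hk'⟩) ≤ δ := (dist_le_pi_dist F' F _).trans hd.le
    have e2 := (BoundedContinuousFunction.dist_coe_le_dist (f := F' ⟨k, hk'⟩) (g := F ⟨k, hk'⟩) x).trans e1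
    rw [Real.dist_eq] at e2
    have e : t8_up (F' ⟨k, hk'⟩) x - t8_up (F ⟨k, hk'⟩) x = F' ⟨k, hk'⟩ x - F ⟨k, hk'⟩ x := by
      show (x + F' ⟨k, hk'⟩ x) - (x + F ⟨k, hk'⟩ x) = _
      ring
    rw [e]
    exact e2
  rw [Real.dist_eq, ← Complex.sub_re]
  have := (Complex.abs_re_le_norm (B (t8_ext p F') - B (t8_ext p F))).trans key
  linarith

theorem t8_part2 (h1 : ST_T1) (h4 : ST_T4) (h5 : ST_T5) (hd2 : ST_D2) (hd3 : ST_D3) (n p : ℕ)
    (B : Sq → ℂ) (hn : 1 ≤ n) (hB : LC n p B) : ∃ b : (Fin p → DiffOmega) → ℝ, ContinuousOn b (EE n p) ∧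
    ∀ y : Sq, (∀ k, y k ∈ AA n) → b (prQ p y) = (B y).re := by
  classical
  haveI : T2Space DiffOmega := h5.1
  set b : (Fin p → DiffOmega) → ℝ := fun g =>
    if h : ∃ y : Sq, (∀ k, y k ∈ AA n) ∧ g = prQ p y then (B h.choose).re else 0 with hb
  have hbe : ∀ y : Sq, (∀ k, y k ∈ AA n) → b (prQ p y) = (B y).re := by
    intro y hy
    have hex : ∃ y' : Sq, (∀ k, y' k ∈ AA n) ∧ prQ p y = prQ p y' := ⟨y, hy, rfl⟩
    simp only [hb]
    rw [dif_pos hex]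
    rw [t8_wd h1 hd2 hn hB hex.choose_spec.1 hy hex.choose_spec.2.symm]
  refine ⟨b, ?_, hbe⟩
  rw [continuousOn_iff_isClosed]
  intro T hT
  have hS := t8_S_cpt hd2 hd3 hn p
  have hK : IsCompact (t8_S n p ∩ (fun F => (B (t8_ext p F)).re) ⁻¹' T) :=
    hS.of_isClosed_subset ((t8_gcont hB).preimage_isClosed_of_isClosed hS.isClosed hT) Set.inter_subset_left
  refine ⟨t8_Q p '' (t8_S n p ∩ (fun F => (B (t8_ext p F)).re) ⁻¹' T),
    (hK.image_of_continuousOn ((t8_Q_cont h1 h4 hd3 hn p).mono Set.inter_subset_left)).isClosed, ?_⟩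
  ext g
  constructor
  · rintro ⟨hgT, y, hy, rfl⟩
    refine ⟨?_, y, hy, rfl⟩
    obtain ⟨F, hF, hFe⟩ := t8_norm (y := y) hd2 hn hy (le_refl 1) p (fun k _ => by simp)
    have e1 : t8_Q p F = prQ p y := t8_cls_up h1 hy hFe
    refine ⟨F, ⟨hF, ?_⟩, e1⟩
    have e2 : (B (t8_ext p F)).re = (B y).re := by
      rw [t8_wd h1 hd2 hn hB (t8_ext_mem hF) hy ((t8_prQ_ext p F).trans e1)]
    show (B (t8_ext p F)).re ∈ T
    rw [e2, ← hbe y hy]
    exact hgT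
  · rintro ⟨⟨F, ⟨hF, hFT⟩, rfl⟩, hE⟩
    refine ⟨?_, hE⟩
    show b (t8_Q p F) ∈ T
    rw [← t8_prQ_ext p F, hbe _ (t8_ext_mem hF)]
    exact hFT

theorem st_T8 (h1 : ST_T1) (h4 : ST_T4) (h5 : ST_T5) (hd2 : ST_D2) (hd3 : ST_D3) : ST_T8 :=
  ⟨fun n p c hn hc => t8_part1 h1 h4 hd2 hd3 n p c hn hc, fun n p B hn hB => t8_part2 h1 h4 h5 hd2 hd3 n p B hn hB⟩

end

end Pool.Agent.Helper67.DO
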